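import Pool.Agent.Lib_helper17.HeisFinal

/-!
# The discrete Heisenberg group in the automorphism group of a one-dimensional shift

A one-dimensional shift is a nonempty closed set of two-sided sequences over a finite alphabet
(with the product topology) which is mapped onto itself by the left shift. Its automorphism group
consists of the self-homeomorphisms which commute with the shift, with the composition of maps.
The discrete Heisenberg group is the group of the upper unitriangular integral `3 × 3` matrices.
We prove that there is an injective homomorphism of the Heisenberg group to the automorphism group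
of a one-dimensional shift.
-/

set_option autoImplicit false

namespace Pool.Agent.Results.MP_60e615_an.HeisenbergEmbeds

/-- The left shift on the two-sided sequences over `A`. -/
def shift {A : Type} (x : ℤ → A) : ℤ → A := fun n => x (n + 1)

/-- A one-dimensional shift over the alphabet `A`: a nonempty closed set of two-sided sequences
which the left shift maps onto itself. -/
structure Subshift (A : Type) [TopologicalSpace A] where
  carrier : Set (ℤ → A)
  nonempty : carrier.Nonempty
  closed : IsClosed carrier
  invariant : shift '' carrier = carrier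

variable {A : Type} [TopologicalSpace A]

theorem Subshift.shift_mem (X : Subshift A) (x : X.carrier) : shift x.1 ∈ X.carrier :=
  X.invariant.subset (Set.mem_image_of_mem shift x.2)

/-- The shift as a map of `X` to itself. -/
def Subshift.sigma (X : Subshift A) (x : X.carrier) : X.carrier := ⟨shift x.1, X.shift_mem x⟩

/-- The homeomorphism `φ` of `X` commutes with the shift. -/
def Subshift.Commutes (X : Subshift A) (φ : X.carrier ≃ₜ X.carrier) : Prop :=
  ∀ x, φ (X.sigma x) = X.sigma (φ x)

theorem Subshift.commutes_one (X : Subshift A) : X.Commutes 1 := fun _ => rfl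

theorem Subshift.commutes_mul (X : Subshift A) {φ ψ : X.carrier ≃ₜ X.carrier}
    (hφ : X.Commutes φ) (hψ : X.Commutes ψ) : X.Commutes (φ * ψ) := by
  intro x
  show φ (ψ (X.sigma x)) = X.sigma (φ (ψ x))
  rw [hψ x, hφ (ψ x)]

theorem Subshift.commutes_inv (X : Subshift A) {φ : X.carrier ≃ₜ X.carrier}
    (hφ : X.Commutes φ) : X.Commutes φ⁻¹ := by
  intro x
  show φ.symm (X.sigma x) = X.sigma (φ.symm x)
  apply φ.injective
  rw [φ.apply_symm_apply, hφ, φ.apply_symm_apply]

/-- The automorphisms of `X`: the homeomorphisms of `X` which commute with the shift, as a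
subgroup of the group of all homeomorphisms of `X`. -/
def Subshift.autSubgroup (X : Subshift A) : Subgroup (X.carrier ≃ₜ X.carrier) where
  carrier := {φ | X.Commutes φ}
  one_mem' := X.commutes_one
  mul_mem' := X.commutes_mul
  inv_mem' := X.commutes_inv

/-- The automorphism group of `X`. -/
def Subshift.Aut (X : Subshift A) : Type := X.autSubgroup

instance (X : Subshift A) : Group X.Aut := X.autSubgroup.toGroup

/-- Upper triangular `3 × 3` matrices with all diagonal entries equal to `1`. -/
def IsUnitriangular (M : Matrix (Fin 3) (Fin 3) ℤ) : Prop :=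
  (∀ i, M i i = 1) ∧ ∀ i j, j < i → M i j = 0

theorem isUnitriangular_one : IsUnitriangular 1 :=
  ⟨fun i => Matrix.one_apply_eq i, fun _ _ h => Matrix.one_apply_ne h.ne'⟩

theorem isUnitriangular_mul {g h : Matrix (Fin 3) (Fin 3) ℤ} (hg : IsUnitriangular g)
    (hh : IsUnitriangular h) : IsUnitriangular (g * h) := by
  obtain ⟨hg1, hg0⟩ := hg
  obtain ⟨hh1, hh0⟩ := hh
  constructor
  · intro i
    rw [Matrix.mul_apply, Fin.sum_univ_three]
    fin_cases i
    · have a1 := hg1 0
      have a2 := hh1 0
      have a3 := hh0 1 0 (by decide)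
      have a4 := hh0 2 0 (by decide)
      simp [a1, a2, a3, a4]
    · have a1 := hg1 1
      have a2 := hh1 1
      have a3 := hg0 1 0 (by decide)
      have a4 := hh0 2 1 (by decide)
      simp [a1, a2, a3, a4]
    · have a1 := hg1 2
      have a2 := hh1 2
      have a3 := hg0 2 0 (by decide)
      have a4 := hg0 2 1 (by decide)
      simp [a1, a2, a3, a4]
  · intro i j hij
    rw [Matrix.mul_apply]
    refine Finset.sum_eq_zero fun k _ => ?_
    rcases lt_or_ge k i with hk | hk
    · rw [hg0 i k hk, zero_mul]
    · rw [hh0 k j (lt_of_lt_of_le hij hk), mul_zero]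

theorem isUnitriangular_adjugate {g : Matrix (Fin 3) (Fin 3) ℤ} (hg : IsUnitriangular g) :
    IsUnitriangular g.adjugate := by
  obtain ⟨hg1, hg0⟩ := hg
  have b0 := hg1 0
  have b1 := hg1 1
  have b2 := hg1 2
  have c1 := hg0 1 0 (by decide)
  have c2 := hg0 2 0 (by decide)
  have c3 := hg0 2 1 (by decide)
  constructor
  · intro i
    rw [Matrix.adjugate_fin_three]
    fin_cases i <;> simp [b0, b1, b2, c1, c2, c3]
  · intro i j hij
    rw [Matrix.adjugate_fin_three]
    fin_cases i <;> fin_cases j <;> first
      | exact absurd hij (by decide) | simp [b0, b1, b2, c1, c2, c3]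

theorem isUnitriangular_inv {g : Matrix.SpecialLinearGroup (Fin 3) ℤ}
    (hg : IsUnitriangular g.1) : IsUnitriangular (g⁻¹).1 :=
  isUnitriangular_adjugate hg

/-- The upper triangular integral matrices with all diagonal entries equal to `1`, as a subgroup of
`SL(3, ℤ)`. -/
def unitriangular : Subgroup (Matrix.SpecialLinearGroup (Fin 3) ℤ) where
  carrier := {g | IsUnitriangular g.1}
  one_mem' := isUnitriangular_one
  mul_mem' := isUnitriangular_mul
  inv_mem' := isUnitriangular_inv

/-- The discrete Heisenberg group. -/
def Heisenberg : Type := unitriangular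

instance : Group Heisenberg := unitriangular.toGroup

section construction

open Pool.Agent.Lib_helper17.HeisShift

variable {K : ℕ} (Φ : GN → (Fin 3 → Fin K) → Fin K)

/-- A sequence of elements of `Fin K` as a sequence of natural numbers. -/
def toN (x : ℤ → Fin K) : ℤ → ℕ := fun n => (x n : ℕ)

theorem continuous_toN : Continuous (toN : (ℤ → Fin K) → ℤ → ℕ) := by
  refine continuous_pi fun n => ?_
  have h1 : Continuous (fun a : Fin K => (a : ℕ)) := continuous_of_discreteTopology
  exact h1.comp (continuous_apply n)

/-- The subshift of the rows. -/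
def rows (hne : ∃ y : ℤ → Heis ℤ → Fin K, Comp hgen Φ y) : Subshift (Fin K) where
  carrier := toN ⁻¹' rowsX hgen Φ
  nonempty := by
    obtain ⟨y, hy⟩ := hne
    exact ⟨fun t => y t 1, y, hy, fun _ => rfl⟩
  closed := (rowsX_closed hgen Φ).preimage continuous_toN
  invariant := by
    ext x
    constructor
    · rintro ⟨y, hy, rfl⟩
      exact (rowsX_shift hgen Φ (toN y)).1 hy
    · intro hx
      refine ⟨fun n => x (n - 1), ?_, ?_⟩
      · show toN (fun n => x (n - 1)) ∈ rowsX hgen Φ
        rw [rowsX_shift]
        have h1 : (fun n : ℤ => toN (fun n => x (n - 1)) (n + 1)) = toN x := by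
          funext n
          show ((x (n + 1 - 1) : Fin K) : ℕ) = (x n : ℕ)
          rw [add_sub_cancel_right]
        rw [h1]
        exact hx
      · funext n
        show x (n + 1 - 1) = x n
        rw [add_sub_cancel_right]

variable {Φ} (hne : ∃ y : ℤ → Heis ℤ → Fin K, Comp hgen Φ y)

theorem row_lt (r : rowsX hgen Φ) (n : ℤ) : (r : ℤ → ℕ) n < K := by
  rw [diag_row]
  exact (diag hgen Φ r n 1).2

/-- The points of the subshift as the sequences of natural numbers. -/
def toRow (x : (rows Φ hne).carrier) : rowsX hgen Φ := ⟨toN x.1, x.2⟩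

/-- The inverse map. -/
def ofRow (r : rowsX hgen Φ) : (rows Φ hne).carrier :=
  ⟨fun n => ⟨(r : ℤ → ℕ) n, row_lt r n⟩, r.2⟩

theorem continuous_toRow : Continuous (toRow hne) :=
  (continuous_toN.comp continuous_subtype_val).subtype_mk _

theorem continuous_ofRow (hK : 0 < K) : Continuous (ofRow hne) := by
  refine Continuous.subtype_mk ?_ _
  refine continuous_pi fun n => ?_
  have h1 : Continuous (fun m : ℕ => (⟨m % K, Nat.mod_lt _ hK⟩ : Fin K)) :=
    continuous_of_discreteTopology
  have h2 : (fun r : rowsX hgen Φ => (⟨(r : ℤ → ℕ) n, row_lt r n⟩ : Fin K)) =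
      fun r => ⟨(r : ℤ → ℕ) n % K, Nat.mod_lt _ hK⟩ := by
    funext r
    exact Fin.ext (Nat.mod_eq_of_lt (row_lt r n)).symm
  rw [h2]
  exact h1.comp ((continuous_apply n).comp continuous_subtype_val)

/-- The homeomorphism defined by an element of the Heisenberg group. -/
noncomputable def homeo (hK : 0 < K) (g : Heis ℤ) :
    (rows Φ hne).carrier ≃ₜ (rows Φ hne).carrier where
  toFun x := ofRow hne (act hgen Φ g (toRow hne x))
  invFun x := ofRow hne (act hgen Φ g⁻¹ (toRow hne x))
  left_inv x := by
    show ofRow hne (act hgen Φ g⁻¹ (act hgen Φ g (toRow hne x))) = x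
    rw [← act_mul hgen Φ hgen_closure, inv_mul_cancel, act_one]
    rfl
  right_inv x := by
    show ofRow hne (act hgen Φ g (act hgen Φ g⁻¹ (toRow hne x))) = x
    rw [← act_mul hgen Φ hgen_closure, mul_inv_cancel, act_one]
    rfl
  continuous_toFun := (continuous_ofRow hne hK).comp
    ((act_continuous hgen Φ hgen_closure hK g).comp (continuous_toRow hne))
  continuous_invFun := (continuous_ofRow hne hK).comp
    ((act_continuous hgen Φ hgen_closure hK g⁻¹).comp (continuous_toRow hne))

/-- The action as a homomorphism to the automorphism group. -/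
noncomputable def autHom (hK : 0 < K) : Heis ℤ →* (rows Φ hne).Aut where
  toFun g := ⟨homeo hne hK g, by
    intro x
    apply Subtype.ext
    funext n
    apply Fin.ext
    show (act hgen Φ g (toRow hne ((rows Φ hne).sigma x)) : ℤ → ℕ) n =
      (act hgen Φ g (toRow hne x) : ℤ → ℕ) (n + 1)
    exact congrFun (act_shift hgen Φ hgen_closure g (toRow hne x)
      (toRow hne ((rows Φ hne).sigma x)) rfl) n⟩
  map_one' := by
    apply Subtype.ext
    apply Homeomorph.ext
    intro x
    show ofRow hne (act hgen Φ 1 (toRow hne x)) = x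
    rw [act_one]
    rfl
  map_mul' g g' := by
    apply Subtype.ext
    apply Homeomorph.ext
    intro x
    show ofRow hne (act hgen Φ (g * g') (toRow hne x)) =
      ofRow hne (act hgen Φ g (act hgen Φ g' (toRow hne x)))
    rw [act_mul hgen Φ hgen_closure]

theorem autHom_injective (hK : 0 < K)
    (hfaith : ∀ g : Heis ℤ, g ≠ 1 → ∃ y : ℤ → Heis ℤ → Fin K, Comp hgen Φ y ∧
      ∃ t h, y t (h * g) ≠ y t h) : Function.Injective (autHom hne hK) := by
  intro g g' h
  apply rho_injective hgen Φ hgen_closure hfaith
  apply Equiv.ext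
  intro r
  show act hgen Φ g r = act hgen Φ g' r
  have h1 := congrArg (fun φ : (rows Φ hne).Aut =>
    toRow hne (φ.1 (ofRow hne r))) h
  exact h1

end construction

open Pool.Agent.Lib_helper17.HeisShift in
/-- The coordinates of an upper unitriangular matrix. -/
def coords : Heisenberg →* Heis ℤ where
  toFun g := ⟨g.1.1 0 1, g.1.1 1 2, g.1.1 0 2⟩
  map_one' := by
    refine Heis.ext ?_ ?_ ?_
    · show (1 : Matrix (Fin 3) (Fin 3) ℤ) 0 1 = 0
      exact Matrix.one_apply_ne (by decide)
    · show (1 : Matrix (Fin 3) (Fin 3) ℤ) 1 2 = 0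
      exact Matrix.one_apply_ne (by decide)
    · show (1 : Matrix (Fin 3) (Fin 3) ℤ) 0 2 = 0
      exact Matrix.one_apply_ne (by decide)
  map_mul' g h := by
    have a0 := g.2.1 0
    have a1 := g.2.1 1
    have b1 := h.2.1 1
    have b2 := h.2.1 2
    have c1 := g.2.2 1 0 (by decide)
    have c2 := h.2.2 2 1 (by decide)
    refine Heis.ext ?_ ?_ ?_
    · show (g.1.1 * h.1.1) 0 1 = g.1.1 0 1 + h.1.1 0 1
      rw [Matrix.mul_apply, Fin.sum_univ_three, a0, b1, c2]
      ring
    · show (g.1.1 * h.1.1) 1 2 = g.1.1 1 2 + h.1.1 1 2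
      rw [Matrix.mul_apply, Fin.sum_univ_three, a1, b2, c1]
      ring
    · show (g.1.1 * h.1.1) 0 2 = g.1.1 0 2 + h.1.1 0 2 + g.1.1 0 1 * h.1.1 1 2
      rw [Matrix.mul_apply, Fin.sum_univ_three, a0, b2]
      ring

theorem coords_injective : Function.Injective coords := by
  intro g h hgh
  have h1 : g.1.1 0 1 = h.1.1 0 1 := congrArg Pool.Agent.Lib_helper17.HeisShift.Heis.a hgh
  have h2 : g.1.1 1 2 = h.1.1 1 2 := congrArg Pool.Agent.Lib_helper17.HeisShift.Heis.b hgh
  have h3 : g.1.1 0 2 = h.1.1 0 2 := congrArg Pool.Agent.Lib_helper17.HeisShift.Heis.c hgh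
  apply Subtype.ext
  apply Subtype.ext
  ext i j
  rcases lt_trichotomy j i with hij | hij | hij
  · rw [g.2.2 i j hij, h.2.2 i j hij]
  · subst hij
    rw [g.2.1 j, h.2.1 j]
  · fin_cases i <;> fin_cases j <;> first | exact absurd hij (by decide) | assumption

/-- There are a finite alphabet and a one-dimensional shift over it (a nonempty closed set of
two-sided sequences which the shift maps onto itself) such that the discrete Heisenberg group
embeds into the group of the homeomorphisms which commute with the shift. -/
theorem result : ∃ (k : ℕ) (X : Subshift (Fin k)) (ρ : Heisenberg →* X.Aut),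
    Function.Injective ρ := by
  obtain ⟨K, Φ, hne, hfaith⟩ := Pool.Agent.Lib_helper17.HeisShift.exists_subshift
  have hK : 0 < K := by
    obtain ⟨y, _⟩ := hne
    exact (Nat.zero_le _).trans_lt (y 0 1).2
  exact ⟨K, rows Φ hne, (autHom hne hK).comp coords,
    (autHom_injective hne hK hfaith).comp coords_injective⟩

end Pool.Agent.Results.MP_60e615_an.HeisenbergEmbeds
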